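import Pool.Agent.H656R2.AK.SetIn

/-!
# The winner problem of 2P 3-value SET is PSPACE-complete

The game of Arc-Kayles is PSPACE-hard (reduction from quantified Boolean formulas through
generalized geography on bipartite directed graphs), and it embeds into 2P 3-value SET: the card of
a vertex `u` is the unit vector `e_u`, the card of an edge `uv` is `2 e_u + 2 e_v`.
-/

namespace Pool.Agent.Results.MP_cf31f8_lc.PSPACEComplete

open Pool.Agent.NPC Pool.Agent.H623R2.PS Pool.Agent.H656R2.AK

/-- Deciding the winner of 2P 3-value SET is `PSPACE`-complete under polynomial-time many-one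
reductions. -/
theorem result : Pool.Agent.H623R2.PS.PSPACEComplete (lang SetGame) :=
  ⟨setGame_mem, setGame_hard⟩

end Pool.Agent.Results.MP_cf31f8_lc.PSPACEComplete
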